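import Pool.Agent.W778.GS.Ord

set_option autoImplicit false

/-!
# Guessing models `M` for which `κ_M` is the successor of a singular cardinal

If `μ` is the limit of `ω` supercompact cardinals, then for every regular `θ > μ⁺` and every
structure on `H_θ` in a countable language there are `μ⁺`-guessing elementary submodels `M` of
size `μ` with `κ_M = μ⁺`.
-/

namespace Pool.Agent.Results.MP_f5d68c_lc.GuessingAtSuccessorOfSingular

open Cardinal Pool.Agent.W873.Tp Pool.Agent.W778.GS

theorem result (κ : ℕ → Cardinal.{0}) (hκ : StrictMono κ) (hs : ∀ n, IsSupercompact (κ n))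
    (μ : Cardinal.{0}) (hμ : μ = ⨆ n, κ n) (θ : Cardinal.{0}) (hθ : Order.succ μ < θ)
    (R : Type) (E : R → R → Prop) (hR : IsH θ R E)
    (L : FirstOrder.Language.{0, 0}) [L.Structure R] (hL : L.card ≤ ℵ₀)
    (A : Set R) (hA : #A ≤ μ) :
    (ℵ₀ ≤ μ ∧ ¬ μ.IsRegular) ∧ ∃ (M : L.ElementarySubstructure R) (k : R),
      A ⊆ (M : Set R) ∧ #M = μ ∧ IsSucc E μ k ∧ IsKappa E (M : Set R) k ∧
        IsGuessing (Order.succ μ) E (M : Set R) :=
  final hκ hs hμ hθ hR L hL A hA

end Pool.Agent.Results.MP_f5d68c_lc.GuessingAtSuccessorOfSingular
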